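import Pool.Agent.TH997.SK.Stm
import Pool.Agent.TH997.UP.CMP

/-!
# The universal set of indices of zeros is computable
-/

set_option autoImplicit false

namespace Pool.Agent.TH997.SK.CMPZ

open Finset Pool.Agent.H612.LR Pool.Agent.TH997.UP
open scoped Classical
open Pool.Agent.TH997.UP.CMP (val wof iseq_eq isz_eq exists_wof length_le_isz)
open Pool.Agent.H692R2.USS (dg)

/-- The universal set in terms of codes. -/
theorem mem_iff (A D : ℕ) (hA : 1 ≤ A) (n : ℕ) : n ∈ LZ A D ↔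
    ∃ s < n + 1, ∃ L < n + 1, ∃ e < (2 ^ n) ^ (4 * n),
      (∑ i ∈ range L,
        (1 + Nat.log 2 (2 * ((dg (2 ^ n) e (4 * i) - dg (2 ^ n) e (4 * i + 1)) +
        (dg (2 ^ n) e (4 * i + 1) - dg (2 ^ n) e (4 * i)))) +
        Nat.log 2 (2 * ((dg (2 ^ n) e (4 * i + 2) - dg (2 ^ n) e (4 * i + 3)) +
        (dg (2 ^ n) e (4 * i + 3) - dg (2 ^ n) e (4 * i + 2)))))) ≤ s ∧
      2 ^ (s ^ A) ≤ n ∧ (val L e (2 ^ n) n).1 = (val L e (2 ^ n) n).2 ∧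
      ((range n).filter (fun m => 2 ^ (s ^ A) ≤ m ∧
        (val L e (2 ^ n) m).1 = (val L e (2 ^ n) m).2)).card ≤
        2 ^ (s ^ D) := by
  have key : ∀ (L e B m : ℕ), iseq (wof L e B) m = 0 ↔ (val L e B m).1 = (val L e B m).2 := by
    intro L e B m
    rw [iseq_eq]
    omega
  have key2 : ∀ (L e B T m : ℕ), zcnt (wof L e B) T m = ((range m).filter (fun m => T ≤ m ∧
        (val L e B m).1 = (val L e B m).2)).card := by
    intro L e B T m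
    unfold zcnt
    congr 1
    refine Finset.filter_congr fun i _ => ?_
    rw [key]
  constructor
  · rintro ⟨s, w, h1, h2, h3, h4⟩
    have hs : s ≤ n := by
      have h5 : s ≤ s ^ A := Nat.le_self_pow (by omega) s
      have h6 : s ^ A < 2 ^ (s ^ A) := Nat.lt_two_pow_self
      omega
    obtain ⟨e, he, hwe⟩ := exists_wof w n (h1.trans hs)
    refine ⟨s, by omega, w.length, ?_, e, he, ?_, h2, ?_, ?_⟩
    · have := length_le_isz w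
      omega
    · rw [← isz_eq, hwe]
      exact h1
    · rw [← key, hwe]
      exact h3
    · rw [← key2, hwe]
      exact h4
  · rintro ⟨s, _, L, _, e, _, h1, h2, h3, h4⟩
    refine ⟨s, wof L e (2 ^ n), ?_, h2, ?_, ?_⟩
    · rw [isz_eq]
      exact h1
    · rw [key]
      exact h3
    · rw [key2]
      exact h4

end Pool.Agent.TH997.SK.CMPZ

namespace Pool.Agent.TH997.SK

open Finset Pool.Agent.H612.LR Pool.Agent.TH997.UP
open scoped Classical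
open Pool.Agent.TH997.UP.CMP (val)
open Pool.Agent.H692R2.USS (cp_and cp_ex csum ccount dg)
open Pool.Agent.Helper446.RE (cp_le cp_lt cp_eq)

theorem cmpz : CMPZ := by
  intro A D hA
  refine ComputablePred.of_eq (p := fun n => ∃ s < n + 1, ∃ L < n + 1, ∃ e < (2 ^ n) ^ (4 * n),
      (∑ i ∈ range L,
        (1 + Nat.log 2 (2 * ((dg (2 ^ n) e (4 * i) - dg (2 ^ n) e (4 * i + 1)) +
        (dg (2 ^ n) e (4 * i + 1) - dg (2 ^ n) e (4 * i)))) +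
        Nat.log 2 (2 * ((dg (2 ^ n) e (4 * i + 2) - dg (2 ^ n) e (4 * i + 3)) +
        (dg (2 ^ n) e (4 * i + 3) - dg (2 ^ n) e (4 * i + 2)))))) ≤ s ∧
      2 ^ (s ^ A) ≤ n ∧ (val L e (2 ^ n) n).1 = (val L e (2 ^ n) n).2 ∧
      ((range n).filter (fun m => 2 ^ (s ^ A) ≤ m ∧
        (val L e (2 ^ n) m).1 = (val L e (2 ^ n) m).2)).card ≤
        2 ^ (s ^ D)) ?_ fun n => (CMPZ.mem_iff A D hA n).symm
  refine cp_ex (p := fun (n : ℕ) s => ∃ L < n + 1, ∃ e < (2 ^ n) ^ (4 * n),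
      (∑ i ∈ range L,
        (1 + Nat.log 2 (2 * ((dg (2 ^ n) e (4 * i) - dg (2 ^ n) e (4 * i + 1)) +
        (dg (2 ^ n) e (4 * i + 1) - dg (2 ^ n) e (4 * i)))) +
        Nat.log 2 (2 * ((dg (2 ^ n) e (4 * i + 2) - dg (2 ^ n) e (4 * i + 3)) +
        (dg (2 ^ n) e (4 * i + 3) - dg (2 ^ n) e (4 * i + 2)))))) ≤ s ∧
      2 ^ (s ^ A) ≤ n ∧ (val L e (2 ^ n) n).1 = (val L e (2 ^ n) n).2 ∧
      ((range n).filter (fun m => 2 ^ (s ^ A) ≤ m ∧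
        (val L e (2 ^ n) m).1 = (val L e (2 ^ n) m).2)).card ≤
        2 ^ (s ^ D)) ?_ (by fun_prop)
  refine cp_ex (p := fun (x : ℕ × ℕ) L => ∃ e < (2 ^ x.1) ^ (4 * x.1),
      (∑ i ∈ range L,
        (1 + Nat.log 2 (2 * ((dg (2 ^ x.1) e (4 * i) - dg (2 ^ x.1) e (4 * i + 1)) +
        (dg (2 ^ x.1) e (4 * i + 1) - dg (2 ^ x.1) e (4 * i)))) +
        Nat.log 2 (2 * ((dg (2 ^ x.1) e (4 * i + 2) - dg (2 ^ x.1) e (4 * i + 3)) +
        (dg (2 ^ x.1) e (4 * i + 3) - dg (2 ^ x.1) e (4 * i + 2)))))) ≤ x.2 ∧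
      2 ^ (x.2 ^ A) ≤ x.1 ∧ (val L e (2 ^ x.1) x.1).1 = (val L e (2 ^ x.1) x.1).2 ∧
      ((range x.1).filter (fun m => 2 ^ (x.2 ^ A) ≤ m ∧
        (val L e (2 ^ x.1) m).1 = (val L e (2 ^ x.1) m).2)).card ≤
        2 ^ (x.2 ^ D)) ?_ (by fun_prop)
  refine cp_ex (p := fun (x : (ℕ × ℕ) × ℕ) e =>
      (∑ i ∈ range x.2,
        (1 + Nat.log 2 (2 * ((dg (2 ^ x.1.1) e (4 * i) - dg (2 ^ x.1.1) e (4 * i + 1)) +
        (dg (2 ^ x.1.1) e (4 * i + 1) - dg (2 ^ x.1.1) e (4 * i)))) +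
        Nat.log 2 (2 * ((dg (2 ^ x.1.1) e (4 * i + 2) - dg (2 ^ x.1.1) e (4 * i + 3)) +
        (dg (2 ^ x.1.1) e (4 * i + 3) - dg (2 ^ x.1.1) e (4 * i + 2)))))) ≤ x.1.2 ∧
      2 ^ (x.1.2 ^ A) ≤ x.1.1 ∧ (val x.2 e (2 ^ x.1.1) x.1.1).1 = (val x.2 e (2 ^ x.1.1) x.1.1).2 ∧
      ((range x.1.1).filter (fun m => 2 ^ (x.1.2 ^ A) ≤ m ∧
        (val x.2 e (2 ^ x.1.1) m).1 = (val x.2 e (2 ^ x.1.1) m).2)).card ≤
        2 ^ (x.1.2 ^ D)) ?_ (by fun_prop)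
  refine cp_and (cp_le ?_ (by fun_prop)) (cp_and (cp_le (by fun_prop) (by fun_prop))
    (cp_and (cp_eq (by fun_prop) (by fun_prop)) (cp_le ?_ (by fun_prop))))
  · refine csum (g := fun (y : ((ℕ × ℕ) × ℕ) × ℕ) i =>
        (1 + Nat.log 2 (2 * ((dg (2 ^ y.1.1.1) y.2 (4 * i) - dg (2 ^ y.1.1.1) y.2 (4 * i + 1)) +
        (dg (2 ^ y.1.1.1) y.2 (4 * i + 1) - dg (2 ^ y.1.1.1) y.2 (4 * i)))) +
        Nat.log 2 (2 * ((dg (2 ^ y.1.1.1) y.2 (4 * i + 2) - dg (2 ^ y.1.1.1) y.2 (4 * i + 3)) +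
        (dg (2 ^ y.1.1.1) y.2 (4 * i + 3) - dg (2 ^ y.1.1.1) y.2 (4 * i + 2))))))
      (by fun_prop) (by fun_prop)
  · refine ccount (p := fun (y : ((ℕ × ℕ) × ℕ) × ℕ) m => 2 ^ (y.1.1.2 ^ A) ≤ m ∧
        (val y.1.2 y.2 (2 ^ y.1.1.1) m).1 = (val y.1.2 y.2 (2 ^ y.1.1.1) m).2)
      (cp_and (cp_le (by fun_prop) (by fun_prop)) (cp_eq (by fun_prop) (by fun_prop)))
      (by fun_prop)

end Pool.Agent.TH997.SK
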