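import Pool.Agent.TH997.SK.Stm
import Pool.Agent.TH997.UP.CNT

/-!
# The universal set for zeros is sparse
-/

set_option autoImplicit false

namespace Pool.Agent.TH997.SK

open Finset Pool.Agent.H612.LR Pool.Agent.TH997.UP
open scoped Classical

namespace CNTZ

/-- the indices coming from one instance -/
noncomputable def Es (w : Z2) (T M N : ℕ) : Finset ℕ :=
  (range N).filter (fun n => T ≤ n ∧ iseq w n = 0 ∧ zcnt w T n ≤ M)

theorem Es_card (w : Z2) (T M N : ℕ) : (Es w T M N).card ≤ M + 1 := by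
  by_cases h : (Es w T M N).Nonempty
  · have hm := (Es w T M N).max'_mem h
    set x := (Es w T M N).max' h with hx
    have hm' : x < N ∧ T ≤ x ∧ iseq w x = 0 ∧ zcnt w T x ≤ M := by
      simpa [Es] using hm
    have h1 : ((Es w T M N).erase x).card ≤ zcnt w T x := by
      unfold zcnt
      apply card_le_card
      intro y hy
      rw [mem_erase] at hy
      have hy1 : y ≤ x := (Es w T M N).le_max' y hy.2
      have hy2 : y < N ∧ T ≤ y ∧ iseq w y = 0 ∧ zcnt w T y ≤ M := by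
        simpa [Es] using hy.2
      rw [mem_filter, mem_range]
      exact ⟨lt_of_le_of_ne hy1 hy.1, hy2.2.1, hy2.2.2.1⟩
    rw [card_erase_of_mem hm] at h1
    have := hm'.2.2.2
    omega
  · rw [not_nonempty_iff_eq_empty] at h
    rw [h]
    simp

theorem LZ_card {A D : ℕ} (hA : 1 ≤ A) (N : ℕ) : (LZ A D ∩ Set.Iio N).ncard ≤
    ∑ s ∈ CNT.Ss A (Nat.log 2 N), 2 ^ (2 * s ^ 2 + 5 * s) *
      (2 ^ (s ^ D) * (Nat.log 2 N + 1) + 1) := by
  have hsub : (LZ A D ∩ Set.Iio N) ⊆ (((CNT.Ss A (Nat.log 2 N)).biUnion fun s =>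
      (CNT.Ws s).biUnion fun w => Es w (2 ^ (s ^ A)) (2 ^ (s ^ D)) N : Finset ℕ) : Set ℕ) := by
    rintro n ⟨⟨s, w, h1, h2, h3, h4⟩, hn⟩
    rw [Set.mem_Iio] at hn
    rw [mem_coe, mem_biUnion]
    have hs : s ^ A ≤ Nat.log 2 N := by
      have h5 : s ^ A ≤ Nat.log 2 n := Nat.le_log_of_pow_le (by norm_num) h2
      exact h5.trans (Nat.log_mono_right hn.le)
    refine ⟨s, ?_, ?_⟩
    · unfold CNT.Ss
      rw [mem_filter, mem_range]
      have : s ≤ s ^ A := Nat.le_self_pow (by omega) s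
      exact ⟨by omega, hs⟩
    · rw [mem_biUnion]
      refine ⟨w, CNT.mem_Ws h1, ?_⟩
      unfold Es
      rw [mem_filter, mem_range]
      exact ⟨hn, h2, h3, h4⟩
  refine (Set.ncard_le_ncard hsub (finite_toSet _)).trans ?_
  rw [Set.ncard_coe_finset]
  refine card_biUnion_le.trans (sum_le_sum fun s _ => ?_)
  refine card_biUnion_le.trans ?_
  refine (sum_le_sum fun w _ => Es_card w _ _ N).trans ?_
  rw [sum_const, smul_eq_mul]
  refine Nat.mul_le_mul (CNT.card_Ws s) ?_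
  have : 2 ^ (s ^ D) * 1 ≤ 2 ^ (s ^ D) * (Nat.log 2 N + 1) := Nat.mul_le_mul le_rfl (by omega)
  omega

end CNTZ

theorem cntz : CNTZ := by
  intro η D hη
  obtain ⟨Z, hZ1, hZ⟩ := CNT.final_ineq hη
  refine ⟨⌈((D + 2 : ℕ) : ℝ) / (η / 2)⌉₊ + 1, fun A hA => ?_⟩
  have hA1 : 1 ≤ A := by omega
  have hAD : ((D + 2 : ℕ) : ℝ) ≤ A * (η / 2) := by
    rw [← div_le_iff₀ (by positivity)]
    refine (Nat.le_ceil _).trans ?_
    exact_mod_cast (by omega : ⌈((D + 2 : ℕ) : ℝ) / (η / 2)⌉₊ ≤ A)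
  have ht := tendsto_rpow_atTop (y := η / 2) (by positivity)
  obtain ⟨X0, hX0⟩ := (Filter.tendsto_atTop_atTop.1 ht) Z
  refine ⟨2 ^ (⌈X0⌉₊ + 1), fun N hN => ?_⟩
  obtain ⟨ℓ, hℓ⟩ : ∃ ℓ : ℕ, ℓ = Nat.log 2 N := ⟨_, rfl⟩
  have hNpos : 0 < N := lt_of_lt_of_le (by positivity) hN
  have hl1 : ⌈X0⌉₊ + 1 ≤ ℓ := by
    rw [hℓ]
    exact Nat.le_log_of_pow_le (by norm_num) hN
  have hl2 : (1 : ℝ) ≤ ℓ := by exact_mod_cast (by omega : 1 ≤ ℓ)
  have hl3 : X0 ≤ ℓ := by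
    refine (Nat.le_ceil _).trans ?_
    exact_mod_cast (by omega : ⌈X0⌉₊ ≤ ℓ)
  have hz := hX0 (ℓ : ℝ) hl3
  have hx : (ℓ : ℝ) * Real.log 2 ≤ Real.log N := by
    rw [← Real.log_pow]
    apply Real.log_le_log (by positivity)
    have : 2 ^ ℓ ≤ N := by
      rw [hℓ]
      exact Nat.pow_log_le_self 2 hNpos.ne'
    exact_mod_cast this
  have h1 := CNTZ.LZ_card (A := A) (D := D) hA1 N
  rw [← hℓ] at h1
  have h2 : ((LZ A D ∩ Set.Iio N).ncard : ℝ) ≤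
      ((∑ s ∈ CNT.Ss A ℓ, 2 ^ (2 * s ^ 2 + 5 * s) * (2 ^ (s ^ D) * (ℓ + 1) + 1) : ℕ) : ℝ) := by
    exact_mod_cast h1
  refine h2.trans (le_trans ?_ (hZ ℓ ((ℓ : ℝ) ^ (η / 2)) (Real.log N) hz hl2 rfl hx))
  rw [Nat.cast_sum]
  have h3 : ∀ s ∈ CNT.Ss A ℓ,
      ((2 ^ (2 * s ^ 2 + 5 * s) * (2 ^ (s ^ D) * (ℓ + 1) + 1) : ℕ) : ℝ) ≤
      (ℓ + 1) * Real.exp (9 * (ℓ : ℝ) ^ (η / 2)) := by
    intro s hs
    have hs' : s ^ A ≤ ℓ := by
      unfold CNT.Ss at hs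
      exact (mem_filter.1 hs).2
    exact CNT.term_le hη (hZ1.trans hz) rfl hAD hs'
  refine (sum_le_sum h3).trans ?_
  rw [sum_const, nsmul_eq_mul]
  apply mul_le_mul_of_nonneg_right _ (by positivity)
  have h4 : (CNT.Ss A ℓ).card ≤ ℓ + 1 := by
    unfold CNT.Ss
    refine (card_filter_le _ _).trans ?_
    rw [card_range]
  exact_mod_cast h4

end Pool.Agent.TH997.SK
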