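import Pool.Agent.TH997.SK.Stm

set_option autoImplicit false

/-! A period modulo a prime, with the bound p ^ deg. -/

namespace Pool.Agent.TH997.SK.PERB

open Polynomial

/-- `X` is invertible modulo a polynomial with nonzero constant coefficient -/
lemma coprime_X {K : Type*} [Field K] {g : K[X]} (h0 : g.coeff 0 ≠ 0) : IsCoprime g X := by
  refine ⟨C (g.coeff 0)⁻¹, - (C (g.coeff 0)⁻¹ * g.divX), ?_⟩
  have h := g.divX_mul_X_add
  have h1 : C (g.coeff 0)⁻¹ * g + -(C (g.coeff 0)⁻¹ * g.divX) * X =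
      C (g.coeff 0)⁻¹ * (g - g.divX * X) := by ring
  have h2 : g - g.divX * X = C (g.coeff 0) := by
    nth_rewrite 1 [← h]
    ring
  rw [h1, h2, ← C_mul, inv_mul_cancel₀ h0, C_1]

lemma exists_period {p : ℕ} [Fact p.Prime] {g : (ZMod p)[X]} (hg : g.Monic)
    (h0 : g.coeff 0 ≠ 0) : ∃ T : ℕ, 1 ≤ T ∧ T ≤ p ^ g.natDegree ∧ g ∣ X ^ T - 1 := by
  have : Module.Finite (ZMod p) (AdjoinRoot g) := hg.finite_adjoinRoot
  have : Finite (AdjoinRoot g) := Module.finite_of_finite (ZMod p)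
  have hfr : Module.finrank (ZMod p) (AdjoinRoot g) = g.natDegree := by
    rw [(AdjoinRoot.powerBasis' hg).finrank, AdjoinRoot.powerBasis'_dim]
  have hfree : Module.Free (ZMod p) (AdjoinRoot g) := hg.free_adjoinRoot
  have hcard : Nat.card (AdjoinRoot g) = p ^ g.natDegree := by
    rw [Module.natCard_eq_pow_finrank (K := ZMod p) (V := AdjoinRoot g), hfr, Nat.card_zmod]
  have hlt : Nat.card (AdjoinRoot g) < Nat.card (Fin (p ^ g.natDegree + 1)) := by
    rw [hcard, Nat.card_fin]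
    exact Nat.lt_succ_self _
  have hex : ∃ a b : Fin (p ^ g.natDegree + 1), a ≠ b ∧
      AdjoinRoot.mk g (X ^ (a : ℕ)) = AdjoinRoot.mk g (X ^ (b : ℕ)) := by
    by_contra hcon
    push Not at hcon
    have hinj : Function.Injective
        (fun a : Fin (p ^ g.natDegree + 1) => AdjoinRoot.mk g (X ^ (a : ℕ))) := by
      intro a b hab
      by_contra hne
      exact hcon a b hne hab
    exact absurd (Nat.card_le_card_of_injective _ hinj) (not_le.2 hlt)
  obtain ⟨a, b, hab, he⟩ := hex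
  have key : ∀ a b : ℕ, a < b → b ≤ p ^ g.natDegree →
      AdjoinRoot.mk g (X ^ a) = AdjoinRoot.mk g (X ^ b) →
      ∃ T : ℕ, 1 ≤ T ∧ T ≤ p ^ g.natDegree ∧ g ∣ X ^ T - 1 := by
    intro a b hab hb he
    refine ⟨b - a, by omega, by omega, ?_⟩
    have h1 : AdjoinRoot.mk g (X ^ a * (X ^ (b - a) - 1)) = 0 := by
      rw [mul_sub, ← pow_add, Nat.add_sub_cancel' hab.le, mul_one, map_sub, he, sub_self]
    rw [AdjoinRoot.mk_eq_zero] at h1
    exact ((coprime_X h0).pow_right).dvd_of_dvd_mul_left h1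
  have hab' : (a : ℕ) ≠ (b : ℕ) := fun h => hab (Fin.ext h)
  rcases lt_or_gt_of_ne hab' with h | h
  · exact key a b h (Nat.lt_succ_iff.1 b.2) he
  · exact key b a h (Nat.lt_succ_iff.1 a.2) he.symm

end Pool.Agent.TH997.SK.PERB

namespace Pool.Agent.TH997.SK

open Finset Pool.Agent.H612.LR Pool.Agent.TH997.UP
open scoped Classical

theorem perb : PERB := by
  intro g p0 hg hp2 hdvd
  have : Fact p0.Prime := ⟨hp2⟩
  obtain ⟨gb, hgb⟩ : ∃ gb : Polynomial (ZMod p0), gb = g.map (Int.castRingHom (ZMod p0)) :=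
    ⟨_, rfl⟩
  have hgbm : gb.Monic := by rw [hgb]; exact hg.map _
  have hgb0 : gb.coeff 0 ≠ 0 := by
    rw [hgb, Polynomial.coeff_map]
    intro h
    have h1 : ((g.coeff 0 : ℤ) : ZMod p0) = 0 := h
    rw [ZMod.intCast_zmod_eq_zero_iff_dvd] at h1
    exact hdvd h1
  have hdeg : gb.natDegree = g.natDegree := by
    rw [hgb]
    exact hg.natDegree_map _
  obtain ⟨T, hT, hTb, hd⟩ := PERB.exists_period hgbm hgb0
  rw [hdeg] at hTb
  have h1 := Polynomial.modByMonic_add_div (Polynomial.X ^ T - 1 : Polynomial ℤ) g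
  have h2 : ((Polynomial.X ^ T - 1 : Polynomial ℤ) %ₘ g).map (Int.castRingHom (ZMod p0)) = 0 := by
    rw [Polynomial.map_modByMonic _ hg, ← hgb]
    rw [(Polynomial.modByMonic_eq_zero_iff_dvd hgbm)]
    simpa using hd
  have h3 : Polynomial.C (p0 : ℤ) ∣ (Polynomial.X ^ T - 1 : Polynomial ℤ) %ₘ g := by
    rw [Polynomial.C_dvd_iff_dvd_coeff]
    intro i
    have h4 := congrArg (fun f => f.coeff i) h2
    simp only [Polynomial.coeff_map, Polynomial.coeff_zero] at h4
    rw [← ZMod.intCast_zmod_eq_zero_iff_dvd]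
    exact h4
  obtain ⟨w, hw⟩ := h3
  refine ⟨T, (Polynomial.X ^ T - 1) /ₘ g, w, hT, hTb, ?_⟩
  rw [← hw, add_comm]
  exact h1.symm

end Pool.Agent.TH997.SK
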