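import Pool.Agent.TH997.SK.Stm
import Pool.Agent.TH997.UP.SCL

/-! Clearing the denominators of a linear recurrence, for zeros. -/

set_option autoImplicit false

namespace Pool.Agent.TH997.SK

open Finset Pool.Agent.H612.LR Pool.Agent.TH997.UP
open scoped Classical

theorem sclz : SCLZ := by
  intro l hl
  refine ⟨Pool.Agent.TH997.UP.SCL.ins l, Pool.Agent.TH997.UP.SCL.ins_length l, ?_, fun n => ?_⟩
  · have hk1 : 1 ≤ l.length := by
      rcases l with _ | ⟨p, l⟩
      · exact absurd rfl hl
      · simp
    have hks : l.length ≤ sz l := Pool.Agent.TH997.UP.SCL.len_le l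
    set s := sz l with hs
    set k := l.length with hk
    have h1 : isz (Pool.Agent.TH997.UP.SCL.ins l) ≤ k * (1 + s * (k + 1) + s * (k + 1)) := by
      unfold isz
      have h2 := List.sum_le_card_nsmul ((Pool.Agent.TH997.UP.SCL.ins l).map fun q => 1 + Nat.size q.1.natAbs +
        Nat.size q.2.natAbs) (1 + s * (k + 1) + s * (k + 1)) ?_
      · rw [List.length_map, Pool.Agent.TH997.UP.SCL.ins_length, smul_eq_mul] at h2
        exact h2
      · intro x hx
        rw [List.mem_map] at hx
        obtain ⟨q, hq, rfl⟩ := hx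
        unfold Pool.Agent.TH997.UP.SCL.ins at hq
        rw [List.mem_map] at hq
        obtain ⟨i, hi, rfl⟩ := hq
        rw [List.mem_range] at hi
        have hm := Pool.Agent.TH997.UP.SCL.size_le (Pool.Agent.TH997.UP.SCL.getD_mem l hi)
        have h3 := Pool.Agent.TH997.UP.SCL.clr_size (q := coef l i) (Pool.Agent.TH997.UP.SCL.den_le l) hm.1 i
        have h4 := Pool.Agent.TH997.UP.SCL.clr_size (q := ini l i) (Pool.Agent.TH997.UP.SCL.den_le l) hm.2 i
        have h5 : s * (i + 2) ≤ s * (k + 1) := Nat.mul_le_mul_left _ (by omega)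
        rw [← hs] at h3 h4
        have h6 := h3.trans h5
        have h7 := h4.trans h5
        simp only
        omega
    refine h1.trans ?_
    have hs1 : 1 ≤ s := hk1.trans hks
    calc k * (1 + s * (k + 1) + s * (k + 1)) ≤ s * (1 + s * (s + 1) + s * (s + 1)) := by gcongr
      _ ≤ 10 * s ^ 3 := by
          have : s ≤ s ^ 3 := Nat.le_self_pow (by norm_num) s
          have h6 : s ^ 2 ≤ s ^ 3 := Nat.pow_le_pow_right hs1 (by norm_num)
          nlinarith
  · have h1 := Pool.Agent.TH997.UP.SCL.seq_eq l n
    have h2 : (0 : ℚ) < (Pool.Agent.TH997.UP.SCL.den l : ℚ) ^ (n + 1) := by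
      have : (0 : ℚ) < Pool.Agent.TH997.UP.SCL.den l := by
        exact_mod_cast Pool.Agent.TH997.UP.SCL.den_pos l
      positivity
    constructor
    · intro h
      rw [h, Int.cast_zero] at h1
      exact (mul_eq_zero.1 h1.symm).resolve_left h2.ne'
    · intro h
      rw [h, mul_zero] at h1
      exact_mod_cast h1

end Pool.Agent.TH997.SK
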