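import Pool.Agent.TH997.SK.Stm
import Pool.Agent.H692R2.USS.Basic

set_option autoImplicit false

namespace Pool.Agent.TH997.SK.SUBS

open Polynomial Pool.Agent.H692R2.USS

/-- a monic polynomial `P` of the degree of `g` with `g ∣ P(X^T)` -/
theorem exists_poly (g : ℤ[X]) (T : ℕ) (hg : g.Monic) :
    ∃ P : ℤ[X], P.Monic ∧ P.natDegree = g.natDegree ∧ g ∣ P.comp (X ^ T) := by
  classical
  set pb := AdjoinRoot.powerBasis' hg with hpb
  have : Module.Finite ℤ (AdjoinRoot g) := pb.finite
  have : Module.Free ℤ (AdjoinRoot g) := Module.Free.of_basis pb.basis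
  have hfin : Module.finrank ℤ (AdjoinRoot g) = g.natDegree := by
    rw [pb.finrank, hpb, AdjoinRoot.powerBasis'_dim]
  set x : AdjoinRoot g := AdjoinRoot.root g ^ T with hx
  set M : Module.End ℤ (AdjoinRoot g) := Algebra.lmul ℤ (AdjoinRoot g) x with hM
  refine ⟨M.charpoly, M.charpoly_monic, ?_, ?_⟩
  · rw [LinearMap.charpoly_natDegree, hfin]
  · have h1 : aeval M M.charpoly = 0 := LinearMap.aeval_self_charpoly M
    have h2 : aeval M M.charpoly = Algebra.lmul ℤ (AdjoinRoot g) (aeval x M.charpoly) := by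
      conv_lhs => rw [hM]
      rw [aeval_algHom_apply]
    rw [h2] at h1
    have h3 := LinearMap.congr_fun h1 1
    simp only [Algebra.coe_lmul_eq_mul, LinearMap.mul_apply', mul_one, LinearMap.zero_apply] at h3
    rw [← AdjoinRoot.mk_eq_zero, ← AdjoinRoot.aeval_eq, aeval_comp, map_pow, aeval_X]
    exact h3

theorem aeval_pow_apply (P : ℤ[X]) (T : ℕ) (u : ℕ → ℤ) (n : ℕ) {N : ℕ} (h : P.natDegree < N) :
    aeval (E ℤ ^ T) P u n = ∑ i ∈ Finset.range N, P.coeff i * u (n + T * i) := by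
  rw [aeval_eq_sum_range' h, LinearMap.sum_apply, Finset.sum_apply]
  refine Finset.sum_congr rfl fun i _ => ?_
  rw [← pow_mul]
  simp

end Pool.Agent.TH997.SK.SUBS

namespace Pool.Agent.TH997.SK

open Finset Pool.Agent.H612.LR Pool.Agent.TH997.UP
open scoped Classical

theorem subs : SUBS := by
  intro g v r T hg hann hT h0 l
  obtain ⟨P, hP, hdeg, hdvd⟩ := SUBS.exists_poly g T hg
  have h1 := Pool.Agent.H692R2.USS.Ann.of_dvd hann hdvd
  unfold Pool.Agent.H692R2.USS.Ann at h1
  rw [Polynomial.aeval_comp, map_pow, Polynomial.aeval_X] at h1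
  have h2 : Pool.Agent.H692R2.USS.Ann P (fun l => v (r + T * l)) := by
    rw [Pool.Agent.H692R2.USS.ann_iff (Nat.lt_succ_self _)]
    intro n
    have h3 := congrFun h1 (r + T * n)
    rw [SUBS.aeval_pow_apply P T v _ (Nat.lt_succ_self _)] at h3
    rw [← show (∑ i ∈ Finset.range (P.natDegree + 1), P.coeff i * v (r + T * n + T * i)) = 0 from h3]
    refine Finset.sum_congr rfl fun i _ => ?_
    rw [mul_add, add_assoc]
  exact h2.eq_zero hP (fun n hn => h0 n (by rw [← hdeg]; exact hn)) l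

end Pool.Agent.TH997.SK
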