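import Pool.Agent.TH997.SK.Stm
import Pool.Agent.H612.LR.T_TM
import Pool.Agent.H612.LR.T_SM
import Pool.Agent.H612.LR.T_PLP
import Pool.Agent.H612.LR.T_RPE
import Pool.Agent.H612.LR.T_RPU

set_option autoImplicit false

/-!
# The formulas `zmFm` and `zsFm`: meaning and polynomial time
-/

namespace Pool.Agent.TH997.SK

open Finset Pool.Agent.H612.LR Pool.Agent.TH997.UP
open Pool.Agent.NPC Pool.Agent.NPC.ER Pool.Agent.NPC.H612 Pool.Agent.H612.PG

namespace ZF

open Pool.Agent.H612.LR.TMaux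

open HLDaux in
/-- The meaning of the formula in terms of the values. -/
theorem holds_zm (l : Rec) (Nb : ℕ) (x : ℕ → ℝ) : (zmFm l Nb).Holds x ↔
    GoodR (VOf x) l ∧ (∀ t < Nb, IsBit ((VOf x).m t)) ∧
    (∀ i < l.length, PowV Nb ((VOf x).lam i) (VOf x).m ((VOf x).s17 i)) ∧
    (l.length : ℝ) ≤ numV Nb (VOf x).m ∧ (DT 0).eval x = 1 ∧
    (∀ j < l.length, ((j + 1 : ℕ) : ℝ) * (DT (j + 1)).eval x =
      (DT j).eval x * (numV Nb (VOf x).m - (j : ℝ))) ∧
    (∑ i ∈ Finset.range l.length, ∑ j ∈ Finset.range l.length,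
      (VOf x).c i j * (((DT j).eval x : ℝ) : ℂ) * (VOf x).s17 i Nb).re = 0 := by
  have e1 : (allR Nb fun t => bitF (mB t)).Holds x ↔ ∀ t < Nb, IsBit ((VOf x).m t) := by
    simp only [holds_allR, holds_bitF]
    rfl
  have e2 : (allR l.length fun i => powF Nb (lamC i) mB (cv 17 i 0)).Holds x ↔
      ∀ i < l.length, PowV Nb ((VOf x).lam i) (VOf x).m ((VOf x).s17 i) := by
    simp only [holds_allR, holds_powF]
    rfl
  have e3 : (Fm.le (numT l.length) (numB Nb mB)).Holds x ↔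
      (l.length : ℝ) ≤ numV Nb (VOf x).m := by
    simp only [Fm.Holds, eval_numB, eval_numT]
    rfl
  have e4 : (Fm.eq (DT 0) Tm.one).Holds x ↔ (DT 0).eval x = 1 := Iff.rfl
  have e5 : (allR l.length fun j => Fm.eq (Tm.mul (numT (j + 1)) (DT (j + 1)))
      (Tm.mul (DT j) (subT (numB Nb mB) (numT j)))).Holds x ↔
      ∀ j < l.length, ((j + 1 : ℕ) : ℝ) * (DT (j + 1)).eval x =
      (DT j).eval x * (numV Nb (VOf x).m - (j : ℝ)) := by
    simp only [holds_allR, Fm.Holds, Tm.eval, eval_subT, eval_numB, eval_numT]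
    rfl
  have e6 : (Fm.eq (csum l.length fun i => csum l.length fun j =>
      cmul (cmul (cC i j) (creal (DT j))) (cv 17 i 0 Nb)).1 Tm.zero).Holds x ↔
      (∑ i ∈ Finset.range l.length, ∑ j ∈ Finset.range l.length,
      (VOf x).c i j * (((DT j).eval x : ℝ) : ℂ) * (VOf x).s17 i Nb).re = 0 := by
    have h : (csum l.length fun i => csum l.length fun j =>
        cmul (cmul (cC i j) (creal (DT j))) (cv 17 i 0 Nb)).1.eval x =
        (cev x (csum l.length fun i => csum l.length fun j =>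
          cmul (cmul (cC i j) (creal (DT j))) (cv 17 i 0 Nb))).re := rfl
    rw [Fm.Holds, h]
    simp only [cev_csum, cev_cmul, cev_creal, Tm.eval]
    rfl
  unfold zmFm
  rw [holds_conj]
  simp only [List.forall_mem_cons, List.not_mem_nil, false_imp_iff, forall_const, and_true,
    h1, h2, h3, h4, h5, h6, h7, e1, e2, e3, e4, e5, e6]
  constructor
  · rintro ⟨a1, a2, a3, a4, a5, a6, a7, a8⟩
    exact ⟨⟨a1, a2, a3, a4, a5, a6, a7⟩, a8⟩
  · rintro ⟨⟨a1, a2, a3, a4, a5, a6, a7⟩, a8⟩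
    exact ⟨a1, a2, a3, a4, a5, a6, a7, a8⟩


end ZF

open Pool.Agent.H612.LR.TMaux in
theorem zm : ZM := by
  have h1 := t_RPE
  have h2 := t_RPU
  intro l Nb hl
  constructor
  · rintro ⟨x, hx⟩
    rw [ZF.holds_zm] at hx
    obtain ⟨g, hbit, hpow, hle, hD0, hD, hre⟩ := hx
    set v := VOf x with hv
    have hrep : Rep l v.lam v.c := h2 l v.lam v.c hl (repF_of l v g)
    set N := VC1.hb v.m Nb with hN
    have hnum : numV Nb v.m = (N : ℝ) := VC1.numV_eq v.m Nb hbit
    rw [hnum] at hle hD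
    have hkN : l.length ≤ N := by exact_mod_cast hle
    have hDT : ∀ j ≤ l.length, (DT j).eval x = (N.choose j : ℝ) := by
      intro j
      induction j with
      | zero => intro _; rw [hD0]; simp
      | succ j ih =>
        intro hj
        have h3 := hD j (by omega)
        rw [ih (by omega)] at h3
        have h4 : ((N.choose (j + 1) * (j + 1) : ℕ) : ℝ) = ((N.choose j * (N - j) : ℕ) : ℝ) := by
          rw [Nat.choose_succ_right_eq]
        rw [Nat.cast_mul, Nat.cast_mul, Nat.cast_sub (by omega)] at h4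
        have h5 : (((j + 1 : ℕ) : ℝ)) ≠ 0 := by positivity
        have h6 : ((j + 1 : ℕ) : ℝ) * (DT (j + 1)).eval x =
            ((j + 1 : ℕ) : ℝ) * (N.choose (j + 1) : ℝ) := by
          rw [h3, ← h4, mul_comm]
        exact mul_left_cancel₀ h5 h6
    refine ⟨N, hkN, VC1.hb_lt _ _, ?_⟩
    have h7 := (hrep (N + 1)).2.2 N hkN (by omega)
    have h8 : (∑ i ∈ Finset.range l.length, ∑ j ∈ Finset.range l.length,
        v.c i j * (((DT j).eval x : ℝ) : ℂ) * v.s17 i Nb) = expo l.length v.lam v.c N := by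
      rw [expo]
      refine Finset.sum_congr rfl fun i hi => Finset.sum_congr rfl fun j hj => ?_
      rw [hDT j (Finset.mem_range.1 hj).le,
        VC1.powV_eq (hpow i (Finset.mem_range.1 hi)) hbit Nb le_rfl]
      push_cast
      rfl
    rw [h8, ← h7] at hre
    have h9 : (((seq l N : ℚ) : ℂ)).re = ((seq l N : ℚ) : ℝ) := Complex.ratCast_re _
    rw [h9] at hre
    exact_mod_cast hre
  · rintro ⟨n, hn1, hn2, hn3⟩
    obtain ⟨lam, c, hrep, -, -⟩ := h1 l hl
    refine ⟨xTM (tmV l Nb n lam c) (fun j => (n.choose j : ℝ)), ?_⟩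
    rw [ZF.holds_zm, VOf_xTM]
    refine ⟨tmV_good l Nb n lam c hrep, fun t _ => dg_bit Nb n t, fun i _ => dg_pow Nb n hn2 _,
      ?_, ?_, ?_, ?_⟩
    · change _ ≤ numV Nb (fun t => ((dg Nb n t : ℕ) : ℝ))
      rw [dg_num Nb n hn2]
      exact_mod_cast hn1
    · rw [DT_xTM]; simp
    · intro j hj
      rw [DT_xTM, DT_xTM]
      change _ = _ * (numV Nb (fun t => ((dg Nb n t : ℕ) : ℝ)) - _)
      rw [dg_num Nb n hn2]
      have h4 : ((n.choose (j + 1) * (j + 1) : ℕ) : ℝ) = ((n.choose j * (n - j) : ℕ) : ℝ) := by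
        rw [Nat.choose_succ_right_eq]
      rw [Nat.cast_mul, Nat.cast_mul, Nat.cast_sub (by omega)] at h4
      rw [← h4, mul_comm]
    · have h7 := (hrep (n + 1)).2.2 n hn1 (by omega)
      have h8 : (∑ i ∈ Finset.range l.length, ∑ j ∈ Finset.range l.length,
          (tmV l Nb n lam c).c i j * (((DT j).eval (xTM (tmV l Nb n lam c)
            (fun j => (n.choose j : ℝ))) : ℝ) : ℂ) * (tmV l Nb n lam c).s17 i Nb) =
          expo l.length lam c n := by
        rw [expo]
        refine Finset.sum_congr rfl fun i hi => Finset.sum_congr rfl fun j hj => ?_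
        rw [DT_xTM]
        simp only [tmV, hd_last]
        push_cast
        rfl
      rw [h8, ← h7]
      have h9 : (((seq l n : ℚ) : ℂ)).re = ((seq l n : ℚ) : ℝ) := Complex.ratCast_re _
      rw [h9]
      exact_mod_cast hn3


theorem zs : ZS := by
  intro l
  have hseq : ∀ n < l.length, seq l n = ini l n := by
    intro n hn
    rw [seq, if_pos hn]
  constructor
  · rintro ⟨x, hx⟩
    unfold zsFm at hx
    rw [holds_conj] at hx
    have h1 := hx (g2 l) (by simp)
    have h2 := hx (exR l.length fun n => Fm.eq (UT n) Tm.zero) (by simp)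
    rw [g2, holds_allR] at h1
    rw [holds_exR] at h2
    obtain ⟨n, hn, h3⟩ := h2
    have h4 := h1 n hn
    rw [holds_eqRat] at h4
    refine ⟨n, hn, ?_⟩
    rw [hseq n hn]
    simp only [Fm.Holds, Tm.eval] at h3
    rw [h4] at h3
    exact_mod_cast h3
  · rintro ⟨n, hn, h⟩
    rw [hseq n hn] at h
    let x : ℕ → ℝ := fun m => (ini l m.unpair.2.unpair.1 : ℝ)
    have hx : ∀ m, (UT m).eval x = (ini l m : ℝ) := by
      intro m
      simp only [UT, Pool.Agent.H612.LR.rv, vr, Tm.eval, x, nm, Nat.unpair_pair]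
    refine ⟨x, ?_⟩
    unfold zsFm
    rw [holds_conj]
    intro φ hφ
    simp only [List.mem_cons, List.not_mem_nil, or_false] at hφ
    rcases hφ with rfl | rfl
    · rw [g2, holds_allR]
      intro m _
      rw [holds_eqRat]
      exact hx m
    · rw [holds_exR]
      refine ⟨n, hn, ?_⟩
      simp only [Fm.Holds]
      rw [hx n]
      simp only [Tm.eval]
      exact_mod_cast h


namespace ZF

open Pool.Agent.NPC.H612.PGP Pool.Agent.NPC.H612.LRP Pool.Agent.NPC.H612.LRPP

section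

variable {α : Type} [TEnc α]

theorem poly_zmFm {l : α → Rec} {Nb : α → ℕ} (hl : Pool.Agent.NPC.Poly l) (hNb : UPoly Nb) :
    Pool.Agent.NPC.Poly (fun a => zmFm (l a) (Nb a)) := by
  have hk : UPoly (fun a => (l a).length) := UPoly.length hl
  have hN := hNb.toPoly
  have hR : UPoly (fun a => 2 * (l a).length + (l a).length ^ 2) :=
    UPoly.add (UPoly.mul (UPoly.const 2) hk) (upoly_sq hk)
  unfold zmFm
  refine poly_conj (Pool.Agent.NPC.Poly.cons (poly_g1 hl) (Pool.Agent.NPC.Poly.cons (poly_g2 hl) (Pool.Agent.NPC.Poly.cons (poly_g3 hk)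
    (Pool.Agent.NPC.Poly.cons (poly_g4 hk hR) (Pool.Agent.NPC.Poly.cons (poly_g5 hk hR) (Pool.Agent.NPC.Poly.cons (poly_g6 hk)
    (Pool.Agent.NPC.Poly.cons (poly_g7 hk) (Pool.Agent.NPC.Poly.cons ?_ (Pool.Agent.NPC.Poly.cons ?_ (Pool.Agent.NPC.Poly.cons ?_ (Pool.Agent.NPC.Poly.cons (Pool.Agent.NPC.Poly.const _)
    (Pool.Agent.NPC.Poly.cons ?_ (Pool.Agent.NPC.Poly.cons ?_ (Pool.Agent.NPC.Poly.const []))))))))))))))
  · exact poly_allR hNb (poly_bitF (poly_mB pl))
  · exact poly_allR hk (poly_powF (uup hNb) (poly_lamC pl) (poly_mB pl)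
      (poly_cvt 17 (up pl) (Pool.Agent.NPC.Poly.const _) pl))
  · exact poly_fle (poly_numT hk.toPoly) (poly_numB hNb (poly_mB pl))
  · exact poly_allR hk (poly_feq (poly_tmul (poly_numT (Pool.Agent.NPC.Poly.succ pl)) (poly_DT (Pool.Agent.NPC.Poly.succ pl)))
      (poly_tmul (poly_DT pl) (poly_subT (poly_numB (uup hNb) (poly_mB pl)) (poly_numT pl))))
  · refine poly_feq (Pool.Agent.NPC.Poly.fst (poly_csum hk (poly_csum (uup hk) ?_))) (Pool.Agent.NPC.Poly.const _)
    exact poly_cmul (poly_cmul (poly_cC (up pl) pl) (poly_creal (poly_DT pl)))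
      (poly_cvt 17 (up pl) (Pool.Agent.NPC.Poly.const _) (up (up hN)))


theorem poly_zsFm {l : α → Rec} (hl : Pool.Agent.NPC.Poly l) : Pool.Agent.NPC.Poly (fun a => zsFm (l a)) := by
  have hk : UPoly (fun a => (l a).length) := UPoly.length hl
  unfold zsFm
  exact poly_conj (Pool.Agent.NPC.Poly.cons (poly_g2 hl) (Pool.Agent.NPC.Poly.cons
    (poly_exR hk (poly_feq (poly_UT pl) (Pool.Agent.NPC.Poly.const _))) (Pool.Agent.NPC.Poly.const [])))


end

end ZF

theorem zp : ZP :=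
  ⟨fun _ hN => ZF.poly_zmFm Pool.Agent.NPC.Poly.id hN, ZF.poly_zsFm Pool.Agent.NPC.Poly.id⟩

end Pool.Agent.TH997.SK
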