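import Pool.Agent.TH997.SK.Stm
import Pool.Agent.TH997.US.C9

/-!
# A recurrence with many zeros has a small zero
-/

set_option autoImplicit false

namespace Pool.Agent.TH997.SK

open Finset Pool.Agent.H612.LR Pool.Agent.TH997.UP
open scoped Classical

namespace ZI

theorem isz_cons (q : ℤ × ℤ) (w : Z2) :
    isz (q :: w) = (1 + Nat.size q.1.natAbs + Nat.size q.2.natAbs) + isz w := by
  simp [isz]

theorem len_le (w : Z2) : w.length ≤ isz w := by
  induction w with
  | nil => simp
  | cons q w ih =>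
    rw [isz_cons, List.length_cons]
    omega

theorem size_le (w : Z2) : ∀ q ∈ w, Nat.size q.1.natAbs ≤ isz w ∧ Nat.size q.2.natAbs ≤ isz w := by
  induction w with
  | nil => simp
  | cons p w ih =>
    intro q hq
    rw [isz_cons]
    rcases List.mem_cons.1 hq with rfl | h
    · omega
    · have := ih q h
      omega

theorem abs_lt_of_size {a : ℤ} {s : ℕ} (h : Nat.size a.natAbs ≤ s) : |a| < 2 ^ s := by
  have h1 : a.natAbs < 2 ^ s :=
    (Nat.lt_size_self a.natAbs).trans_le (Nat.pow_le_pow_right (by norm_num) h)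
  rw [Int.abs_eq_natAbs]
  exact_mod_cast h1

theorem getD_lt (w : Z2) (i : ℕ) : |(w.getD i (0, 0)).1| < 2 ^ isz w ∧
    |(w.getD i (0, 0)).2| < 2 ^ isz w := by
  by_cases hi : i < w.length
  · rw [List.getD_eq_getElem _ _ hi]
    have := size_le w _ (List.getElem_mem hi)
    exact ⟨abs_lt_of_size this.1, abs_lt_of_size this.2⟩
  · rw [List.getD_eq_default _ _ (not_lt.1 hi)]
    simp

theorem iseq_ge (w : Z2) {n : ℕ} (h : w.length ≤ n) :
    iseq w n = ∑ i ∈ range w.length, (w.getD i (0, 0)).1 * iseq w (n - 1 - i) := by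
  rw [iseq, if_neg (not_lt.2 h)]
  exact Fin.sum_univ_eq_sum_range (fun i => (w.getD i (0, 0)).1 * iseq w (n - 1 - i)) w.length

theorem growth (w : Z2) (n : ℕ) : |iseq w n| ≤ 2 ^ ((2 * isz w + 1) * (n + 1)) := by
  induction n using Nat.strong_induction_on with
  | _ n ih =>
    by_cases hn : n < w.length
    · rw [iseq, if_pos hn]
      refine (getD_lt w n).2.le.trans ?_
      refine pow_le_pow_right₀ (by norm_num) ?_
      nlinarith
    · rw [iseq_ge w (not_lt.1 hn)]
      refine (Finset.abs_sum_le_sum_abs _ _).trans ?_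
      have h1 : ∀ i ∈ range w.length, |(w.getD i (0, 0)).1 * iseq w (n - 1 - i)| ≤
          2 ^ isz w * 2 ^ ((2 * isz w + 1) * n) := by
        intro i hi
        rw [mem_range] at hi
        rw [abs_mul]
        refine mul_le_mul (getD_lt w i).1.le ((ih (n - 1 - i) (by omega)).trans ?_)
          (abs_nonneg _) (by positivity)
        refine pow_le_pow_right₀ (by norm_num) ?_
        exact Nat.mul_le_mul_left _ (by omega)
      refine (Finset.sum_le_sum h1).trans ?_
      rw [sum_const, card_range, nsmul_eq_mul]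
      have h2 : (w.length : ℤ) ≤ 2 ^ isz w := by
        have := (len_le w).trans (Nat.lt_two_pow_self (n := isz w)).le
        exact_mod_cast this
      calc (w.length : ℤ) * (2 ^ isz w * 2 ^ ((2 * isz w + 1) * n))
          ≤ 2 ^ isz w * (2 ^ isz w * 2 ^ ((2 * isz w + 1) * n)) :=
            mul_le_mul_of_nonneg_right h2 (by positivity)
        _ = 2 ^ (isz w + isz w + (2 * isz w + 1) * n) := by
            rw [pow_add, pow_add]; ring
        _ ≤ 2 ^ ((2 * isz w + 1) * (n + 1)) := by
            refine pow_le_pow_right₀ (by norm_num) ?_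
            nlinarith

/-- The characteristic polynomial of the sequence after the initial values. -/
theorem exists_poly (w : Z2) (h : ∃ i < w.length, (w.getD i (0, 0)).1 ≠ 0) :
    ∃ g : Polynomial ℤ, g.Monic ∧ g.natDegree ≤ w.length ∧ 1 ≤ g.natDegree ∧
      g.coeff 0 ≠ 0 ∧ |g.coeff 0| < 2 ^ isz w ∧
      Pool.Agent.H692R2.USS.Ann g (fun n => iseq w (n + w.length)) := by
  classical
  set a : ℕ → ℤ := fun i => (w.getD i (0, 0)).1 with ha
  obtain ⟨j, hj, hja, hmax⟩ : ∃ j < w.length, a j ≠ 0 ∧ ∀ i < w.length, j < i → a i = 0 := by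
    have hne : ((range w.length).filter fun i => a i ≠ 0).Nonempty := by
      obtain ⟨i, hi, hi'⟩ := h
      exact ⟨i, mem_filter.2 ⟨mem_range.2 hi, hi'⟩⟩
    obtain ⟨j, hj, hj'⟩ := exists_max_image _ (fun i => i) hne
    rw [mem_filter, mem_range] at hj
    refine ⟨j, hj.1, hj.2, fun i hi hji => ?_⟩
    by_contra hc
    have := hj' i (mem_filter.2 ⟨mem_range.2 hi, hc⟩)
    omega
  set f : Polynomial ℤ := ∑ i ∈ range (j + 1), Polynomial.C (a (j - i)) * Polynomial.X ^ i with hf
  have hfc : ∀ i, f.coeff i = if i < j + 1 then a (j - i) else 0 := by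
    intro i
    simp only [hf, Polynomial.finsetSum_coeff, Polynomial.coeff_C_mul, Polynomial.coeff_X_pow]
    simp [mem_range]
  have hfd : f.degree < ((j + 1 : ℕ) : WithBot ℕ) := by
    rw [Polynomial.degree_lt_iff_coeff_zero]
    intro m hm
    rw [hfc, if_neg (by omega)]
  have hgm : (Polynomial.X ^ (j + 1) - f).Monic := Polynomial.monic_X_pow_sub hfd
  have hgd : (Polynomial.X ^ (j + 1) - f).natDegree = j + 1 := by
    have h1 : (Polynomial.X ^ (j + 1) - f).degree = ((j + 1 : ℕ) : WithBot ℕ) := by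
      rw [Polynomial.degree_sub_eq_left_of_degree_lt, Polynomial.degree_X_pow]
      rw [Polynomial.degree_X_pow]
      exact hfd
    exact Polynomial.natDegree_eq_of_degree_eq_some h1
  have hg0 : (Polynomial.X ^ (j + 1) - f).coeff 0 = -a j := by
    rw [Polynomial.coeff_sub, hfc, if_pos (by omega), Polynomial.coeff_X_pow, if_neg (by omega)]
    simp
  refine ⟨Polynomial.X ^ (j + 1) - f, hgm, by omega, by omega, ?_, ?_, ?_⟩
  · rw [hg0]
    exact neg_ne_zero.2 hja
  · rw [hg0, abs_neg]
    exact (getD_lt w j).1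
  · rw [Pool.Agent.H692R2.USS.ann_iff (N := j + 2) (by omega)]
    intro n
    rw [sum_range_succ]
    have h1 : (Polynomial.X ^ (j + 1) - f).coeff (j + 1) = 1 := by
      have := hgm.coeff_natDegree
      rwa [hgd] at this
    have h2 : ∀ i ∈ range (j + 1), (Polynomial.X ^ (j + 1) - f).coeff i *
        iseq w (n + i + w.length) = -(a (j - i) * iseq w (n + i + w.length)) := by
      intro i hi
      rw [mem_range] at hi
      rw [Polynomial.coeff_sub, hfc, if_pos hi, Polynomial.coeff_X_pow, if_neg (by omega)]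
      ring
    have h3 : iseq w (n + (j + 1) + w.length) =
        ∑ i ∈ range (j + 1), a i * iseq w (n + (j - i) + w.length) := by
      rw [iseq_ge w (by omega)]
      rw [← sum_subset (s₁ := range (j + 1)) (by
        intro i hi; rw [mem_range] at *; omega)]
      · refine sum_congr rfl fun i hi => ?_
        rw [mem_range] at hi
        congr 2
        omega
      · intro i hi hi'
        rw [mem_range] at hi hi'
        have := hmax i hi (by omega)
        simp only [ha] at this
        rw [this, zero_mul]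
    have h4 : ∑ i ∈ range (j + 1), a (j - i) * iseq w (n + i + w.length) =
        ∑ i ∈ range (j + 1), a i * iseq w (n + (j - i) + w.length) := by
      rw [← sum_range_reflect]
      refine sum_congr rfl fun i hi => ?_
      rw [mem_range] at hi
      rw [show j - (j + 1 - 1 - i) = i by omega, show j + 1 - 1 - i = j - i by omega]
    rw [h1, one_mul, sum_congr rfl h2, sum_neg_distrib, h4, h3]
    ring

theorem arith1 {s : ℕ} (hs : 1 ≤ s) : s ≤ 2 ^ (s ^ 2) := by
  calc s ≤ 2 ^ s := (Nat.lt_two_pow_self (n := s)).le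
    _ ≤ 2 ^ (s ^ 2) := Nat.pow_le_pow_right (by norm_num) (by nlinarith)

theorem arith {s k T M : ℕ} (hs : 1 ≤ s) (hk : k ≤ s)
    (hT : T ≤ 2 ^ ((s + 3) * s)) (hM : M ≤ k + T * k) :
    k + T * (2 * ((2 * s + 1) * M) + 1) ≤ 2 ^ (16 * s ^ 16) ∧ T + k ≤ 2 ^ (16 * s ^ 16) := by
  have hs2 : 1 ≤ s ^ 2 := Nat.one_le_pow _ _ hs
  have e1 := arith1 hs
  set x := 2 ^ (s ^ 2) with hx
  have hx2 : 2 ≤ x := by
    calc 2 = 2 ^ 1 := by norm_num
      _ ≤ x := Nat.pow_le_pow_right (by norm_num) hs2
  have hT4 : T ≤ x ^ 4 := by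
    rw [hx, ← pow_mul]
    exact hT.trans (Nat.pow_le_pow_right (by norm_num) (by nlinarith))
  have hkx : k ≤ x := hk.trans e1
  have hx15 : x ^ 16 ≤ 2 ^ (16 * s ^ 16) := by
    rw [hx, ← pow_mul]
    refine Nat.pow_le_pow_right (by norm_num) ?_
    have : s ^ 2 ≤ s ^ 16 := Nat.pow_le_pow_right hs (by norm_num)
    nlinarith
  have hM2 : M ≤ x ^ 6 := by
    calc M ≤ k + T * k := hM
      _ ≤ x + x ^ 4 * x := Nat.add_le_add hkx (Nat.mul_le_mul hT4 hkx)
      _ ≤ x ^ 5 + x ^ 5 := by
          refine Nat.add_le_add ?_ (by ring_nf; exact le_rfl)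
          calc x = x ^ 1 := (pow_one x).symm
            _ ≤ x ^ 5 := Nat.pow_le_pow_right (by omega) (by norm_num)
      _ = 2 * x ^ 5 := by ring
      _ ≤ x * x ^ 5 := Nat.mul_le_mul_right _ hx2
      _ = x ^ 6 := by ring
  have h2s : 2 * s + 1 ≤ x ^ 3 := by
    have : 2 * s + 1 ≤ 2 * x + x := by omega
    calc 2 * s + 1 ≤ 4 * x := by omega
      _ ≤ (x * x) * x := by
          refine Nat.mul_le_mul_right _ ?_
          nlinarith
      _ = x ^ 3 := by ring
  have h5 : 2 * ((2 * s + 1) * M) + 1 ≤ x ^ 11 := by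
    have h6 : (2 * s + 1) * M ≤ x ^ 9 := by
      calc (2 * s + 1) * M ≤ x ^ 3 * x ^ 6 := Nat.mul_le_mul h2s hM2
        _ = x ^ 9 := by ring
    have h7 : 1 ≤ x ^ 9 := Nat.one_le_pow _ _ (by omega)
    calc 2 * ((2 * s + 1) * M) + 1 ≤ 4 * x ^ 9 := by omega
      _ ≤ (x * x) * x ^ 9 := by
          refine Nat.mul_le_mul_right _ ?_
          nlinarith
      _ = x ^ 11 := by ring
  have hx1 : x ≤ x ^ 15 := by
    calc x = x ^ 1 := (pow_one x).symm
      _ ≤ x ^ 15 := Nat.pow_le_pow_right (by omega) (by norm_num)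
  have hfin : x ^ 15 + x ^ 15 ≤ x ^ 16 := by
    calc x ^ 15 + x ^ 15 = 2 * x ^ 15 := by ring
      _ ≤ x * x ^ 15 := Nat.mul_le_mul_right _ hx2
      _ = x ^ 16 := by ring
  constructor
  · refine le_trans ?_ (hfin.trans hx15)
    refine Nat.add_le_add (hkx.trans hx1) ?_
    calc T * (2 * ((2 * s + 1) * M) + 1) ≤ x ^ 4 * x ^ 11 := Nat.mul_le_mul hT4 h5
      _ = x ^ 15 := by ring
  · refine le_trans ?_ (hfin.trans hx15)
    exact Nat.add_le_add (hT4.trans (Nat.pow_le_pow_right (by omega) (by norm_num)))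
      (hkx.trans hx1)

end ZI

theorem zi : SUBS → PERB → ZI := by
  intro hS hP
  refine ⟨16, fun w hw N hN => ?_⟩
  by_contra hcon
  push Not at hcon
  set s := isz w with hs
  set k := w.length with hk
  have hk1 : 1 ≤ k := List.length_pos_iff.2 hw
  have hks : k ≤ s := ZI.len_le w
  have hs1 : 1 ≤ s := hk1.trans hks
  by_cases h : ∃ i < w.length, (w.getD i (0, 0)).1 ≠ 0
  swap
  · push Not at h
    have h1 := (ZI.arith (s := s) (k := k) (T := 1) (M := 0) hs1 hks
      (Nat.one_le_pow _ _ (by norm_num)) (by omega)).2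
    refine hcon k (by omega) ?_
    rw [ZI.iseq_ge w le_rfl]
    refine sum_eq_zero fun i hi => ?_
    rw [mem_range] at hi
    rw [h i hi, zero_mul]
  obtain ⟨g, hg, hgk, hg1, hg0, hg0', hann⟩ := ZI.exists_poly w h
  obtain ⟨p0, hp0, hp1, hp2⟩ := Nat.exists_prime_lt_and_le_two_mul (2 ^ (s + 2)) (by positivity)
  have hp3 : 3 ≤ p0 := by
    have : 4 ≤ 2 ^ (s + 2) := by
      rw [pow_add]
      have := Nat.one_le_two_pow (n := s)
      omega
    omega
  rw [← hs] at hg0'
  have hnd : ¬ (p0 : ℤ) ∣ g.coeff 0 := by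
    intro hd
    have h1 := Int.le_of_dvd (abs_pos.2 hg0) ((dvd_abs _ _).2 hd)
    have h2 : (2 : ℤ) ^ s ≤ 2 ^ (s + 2) := pow_le_pow_right₀ (by norm_num) (by omega)
    have h3 : (2 : ℤ) ^ (s + 2) < p0 := by exact_mod_cast hp1
    omega
  obtain ⟨T, q, w', hT1, hT2, hq⟩ := hP g p0 hg hp0 hnd
  have hT : T ≤ 2 ^ ((s + 3) * s) := by
    calc T ≤ p0 ^ g.natDegree := hT2
      _ ≤ p0 ^ s := Nat.pow_le_pow_right (by omega) (hgk.trans hks)
      _ ≤ (2 ^ (s + 3)) ^ s := by
          refine Nat.pow_le_pow_left ?_ _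
          calc p0 ≤ 2 * 2 ^ (s + 2) := hp2
            _ = 2 ^ (s + 3) := by ring
      _ = 2 ^ ((s + 3) * s) := by rw [← pow_mul]
  obtain ⟨har1, har2⟩ := ZI.arith (M := k + T * k) hs1 hks hT le_rfl
  set v : ℕ → ℤ := fun n => iseq w (n + w.length) with hv
  set L : ℕ → Finset ℕ := fun r => (range N).filter fun l => v (r + T * l) = 0 with hL
  have hcard : ∀ r < T, (L r).card ≤ 2 * ((2 * s + 1) * (k + T * k)) + 1 := by
    intro r hr
    obtain ⟨l0, hl0, hne⟩ : ∃ l < g.natDegree, v (r + T * l) ≠ 0 := by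
      by_contra hc
      push Not at hc
      have := hS g v r T hg hann hT1 hc 0
      rw [mul_zero, add_zero] at this
      exact hcon (r + w.length) (by omega) this
    have h9 := (Pool.Agent.TH997.US.c9 g q w' p0 T v r (L r).card (L r) hg hp0 hp3 hT1 hq hann
      le_rfl (fun l hl => (mem_filter.1 hl).2) l0).resolve_left hne
    have h10 : |v (r + T * l0)| ≤ 2 ^ ((2 * s + 1) * (k + T * k)) := by
      refine (ZI.growth w _).trans ?_
      refine pow_le_pow_right₀ (by norm_num) (Nat.mul_le_mul_left _ ?_)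
      have h11 : l0 + 1 ≤ k := by omega
      calc r + T * l0 + w.length + 1 ≤ T * (l0 + 1) + k := by
            rw [mul_add, mul_one]; omega
        _ ≤ k + T * k := by
            have := Nat.mul_le_mul_left T h11
            omega
    have h12 : (2 : ℤ) ^ ((L r).card / 2) ≤ 2 ^ ((2 * s + 1) * (k + T * k)) :=
      (pow_le_pow_left₀ (by norm_num) (by norm_num) _).trans (h9.trans h10)
    have h13 : (L r).card / 2 ≤ (2 * s + 1) * (k + T * k) :=
      (pow_le_pow_iff_right₀ (by norm_num : (1 : ℤ) < 2)).1 h12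
    omega
  have hsub : (range N).filter (fun n => iseq w n = 0) ⊆
      range k ∪ (range T).biUnion fun r => (L r).image fun l => k + (r + T * l) := by
    intro n hn
    rw [mem_filter, mem_range] at hn
    rw [mem_union, mem_range, mem_biUnion]
    by_cases hnk : n < k
    · exact Or.inl hnk
    · right
      refine ⟨(n - k) % T, mem_range.2 (Nat.mod_lt _ hT1), mem_image.2 ⟨(n - k) / T, ?_, ?_⟩⟩
      · rw [hL, mem_filter, mem_range]
        refine ⟨?_, ?_⟩
        · have := Nat.div_le_self (n - k) T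
          omega
        · rw [Nat.mod_add_div]
          simp only [hv]
          rw [← hk, Nat.sub_add_cancel (not_lt.1 hnk)]
          exact hn.2
      · rw [Nat.mod_add_div]
        omega
  have hfin := card_le_card hsub
  have h14 : (range k ∪ (range T).biUnion fun r => (L r).image fun l => k + (r + T * l)).card ≤
      k + T * (2 * ((2 * s + 1) * (k + T * k)) + 1) := by
    refine (card_union_le _ _).trans ?_
    rw [card_range]
    refine Nat.add_le_add_left ?_ _
    refine card_biUnion_le.trans ?_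
    refine (sum_le_card_nsmul _ _ (2 * ((2 * s + 1) * (k + T * k)) + 1) (fun r hr => ?_)).trans ?_
    · exact card_image_le.trans (hcard r (mem_range.1 hr))
    · rw [card_range, smul_eq_mul]
  omega

end Pool.Agent.TH997.SK
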