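import Pool.Agent.TH997.SK.Stm
import Pool.Agent.H612.LR.MainP
import Pool.Agent.TH997.UP.Fin

/-!
# The Skolem Problem up to a universal sparse set of indices, in `∃ℝ`: assembly
-/

set_option autoImplicit false

namespace Pool.Agent.TH997.SK

open Pool.Agent.NPC Pool.Agent.NPC.ER Pool.Agent.NPC.H612 Pool.Agent.H612.PG Pool.Agent.H612.LR
open Finset Pool.Agent.TH997.UP
open scoped Classical

/-- The typed reduction. -/
theorem main_typed (hZI : ZI) (hSCL : SCLZ) (hCNT : CNTZ) (hCMP : CMPZ) (hZM : ZM) (hZS : ZS)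
    (hZP : ZP) (η : ℝ) (hη : 0 < η) :
    ∃ (L : Set ℕ) (g : Rec → Fm), ComputablePred (fun n : ℕ => n ∈ L) ∧
      (∃ N0 : ℕ, ∀ N : ℕ, N0 ≤ N → ((L ∩ Set.Iio N).ncard : ℝ) ≤ Real.exp (Real.log N ^ η)) ∧
      Pool.Agent.NPC.Poly g ∧ ∀ l : Rec, l ≠ [] →
        (ETR (g l) → ∃ n, seq l n = 0) ∧ ((∃ n, n ∉ L ∧ seq l n = 0) → ETR (g l)) := by
  obtain ⟨C, hC⟩ := hZI
  obtain ⟨A0, hA0⟩ := hCNT η (2 * C) hη
  set A := max A0 (2 * C + 1) with hA
  refine ⟨LZ A (2 * C), fun l => disj [zmFm l ((10 * Pool.Agent.H612.LR.sz l ^ 3) ^ A), zsFm l],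
    hCMP A (2 * C) (by omega), hA0 A (le_max_left _ _), ?_, fun l hl => ?_⟩
  · exact poly_disj (Pool.Agent.NPC.Poly.cons (hZP.1 _ (Pool.Agent.TH997.UP.Fin.upoly_Nb A))
      (Pool.Agent.NPC.Poly.cons hZP.2 (Pool.Agent.NPC.Poly.const [])))
  · have hk : 1 ≤ l.length := List.length_pos_iff.2 hl
    have hT := hZM l ((10 * Pool.Agent.H612.LR.sz l ^ 3) ^ A) hk
    have hS := hZS l
    rw [etr_disj]
    simp only [List.mem_cons, List.not_mem_nil, or_false, exists_eq_or_imp, exists_eq_left]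
    refine ⟨?_, ?_⟩
    · rintro (h | h)
      · obtain ⟨n, _, _, hn⟩ := hT.1 h
        exact ⟨n, hn⟩
      · obtain ⟨n, _, hn⟩ := hS.1 h
        exact ⟨n, hn⟩
    · rintro ⟨n, hnL, hn⟩
      -- a zero with a small index suffices
      have key : (∃ m, m < 2 ^ ((10 * Pool.Agent.H612.LR.sz l ^ 3) ^ A) ∧ seq l m = 0) →
          ETR (zmFm l ((10 * Pool.Agent.H612.LR.sz l ^ 3) ^ A)) ∨ ETR (zsFm l) := by
        rintro ⟨m, hm, hm0⟩
        by_cases hmk : m < l.length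
        · exact Or.inr (hS.2 ⟨m, hmk, hm0⟩)
        · exact Or.inl (hT.2 ⟨m, not_lt.1 hmk, hm, hm0⟩)
      apply key
      obtain ⟨w, hw1, hw2, hw3⟩ := hSCL l hl
      have hwne : w ≠ [] := by
        rintro rfl
        simp at hw1
        omega
      have hz := Pool.Agent.TH997.UP.Fin.sz_pos l hl
      set s := 10 * Pool.Agent.H612.LR.sz l ^ 3 with hs
      have hs10 : 10 ≤ s := by
        have : 1 ≤ Pool.Agent.H612.LR.sz l ^ 3 := Nat.one_le_pow _ _ hz
        omega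
      have hCs : C * isz w ^ C ≤ s ^ (2 * C) := by
        have e1 : C ≤ s ^ C := (Nat.lt_pow_self (by omega)).le
        calc C * isz w ^ C ≤ s ^ C * s ^ C :=
              Nat.mul_le_mul e1 (Nat.pow_le_pow_left hw2 _)
          _ = s ^ (2 * C) := by rw [← pow_add]; congr 1; omega
      have hCA : s ^ (2 * C) ≤ s ^ A := Nat.pow_le_pow_right (by omega)
        ((Nat.le_succ _).trans (le_max_right _ _))
      by_cases hlt : n < 2 ^ (s ^ A)
      · exact ⟨n, hlt, hn⟩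
      · rw [not_lt] at hlt
        have hnz : iseq w n = 0 := (hw3 n).2 hn
        have hcard : 2 ^ (s ^ (2 * C)) < zcnt w (2 ^ (s ^ A)) n := by
          by_contra hcon
          exact hnL ⟨s, w, hw2, hlt, hnz, not_lt.1 hcon⟩
        have h6 : 2 ^ (C * isz w ^ C) ≤ 2 ^ (s ^ (2 * C)) := Nat.pow_le_pow_right (by norm_num) hCs
        have h7 : 2 ^ (C * isz w ^ C) < ((range n).filter (fun n => iseq w n = 0)).card := by
          refine lt_of_le_of_lt h6 (lt_of_lt_of_le hcard (Finset.card_le_card ?_))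
          intro m hm
          rw [Finset.mem_filter] at hm ⊢
          exact ⟨hm.1, hm.2.2⟩
        obtain ⟨m, hm, hm0⟩ := hC w hwne n h7
        refine ⟨m, lt_of_lt_of_le hm ?_, (hw3 m).1 hm0⟩
        exact Nat.pow_le_pow_right (by norm_num) (hCs.trans hCA)

/-- From typed reductions to functions on strings. -/
theorem main_str (hZI : ZI) (hSCL : SCLZ) (hCNT : CNTZ) (hCMP : CMPZ) (hZM : ZM) (hZS : ZS)
    (hZP : ZP) (η : ℝ) (hη : 0 < η) :
    ∃ (L : Set ℕ) (f : List Bool → Fm), ComputablePred (fun n : ℕ => n ∈ L) ∧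
      (∃ N0 : ℕ, ∀ N : ℕ, N0 ≤ N → ((L ∩ Set.Iio N).ncard : ℝ) ≤ Real.exp (Real.log N ^ η)) ∧
      PolyTime (fun w => bits (f w)) ∧ ∀ l : Rec, l ≠ [] →
        (ETR (f (bits l)) → ∃ n, seq l n = 0) ∧
        ((∃ n, n ∉ L ∧ seq l n = 0) → ETR (f (bits l))) := by
  obtain ⟨L, g, hL, hc, hg, h⟩ := main_typed hZI hSCL hCNT hCMP hZM hZS hZP η hη
  obtain ⟨f, hf, h'⟩ := toStr hg
  refine ⟨L, f, hL, hc, hf, fun l hl => ?_⟩
  rw [h']
  exact h l hl

end Pool.Agent.TH997.SK
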