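import Pool.Agent.TH997.UP.Stm
import Pool.Agent.TH997.US.Stm
import Pool.Agent.H612.LR.StmP

/-!
# The Skolem Problem up to a universal sparse set of indices, in `∃ℝ`: statements
-/

set_option autoImplicit false

namespace Pool.Agent.TH997.SK

open Finset Pool.Agent.H612.LR Pool.Agent.TH997.UP
open scoped Classical

/-! ### A. Many zeros imply a small zero -/

/-- SUBS: a recurrence sequence in a residue class. -/
def SUBS : Prop := ∀ (g : Polynomial ℤ) (v : ℕ → ℤ) (r T : ℕ), g.Monic →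
  Pool.Agent.H692R2.USS.Ann g v → 1 ≤ T → (∀ l < g.natDegree, v (r + T * l) = 0) →
  ∀ l, v (r + T * l) = 0

/-- PERB: a period modulo a prime. -/
def PERB : Prop := ∀ (g : Polynomial ℤ) (p0 : ℕ), g.Monic → p0.Prime →
  ¬ (p0 : ℤ) ∣ g.coeff 0 → ∃ (T : ℕ) (q w : Polynomial ℤ), 1 ≤ T ∧ T ≤ p0 ^ g.natDegree ∧
    Polynomial.X ^ T - 1 = g * q + Polynomial.C (p0 : ℤ) * w

/-- ZI: a recurrence with many zeros has a small zero. -/
def ZI : Prop := ∃ C : ℕ, ∀ w : Z2, w ≠ [] → ∀ N : ℕ,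
  2 ^ (C * isz w ^ C) < ((range N).filter (fun n => iseq w n = 0)).card →
  ∃ n, n < 2 ^ (C * isz w ^ C) ∧ iseq w n = 0

/-! ### B. The universal set -/

/-- The number of zeros with index in `[T, n)`. -/
noncomputable def zcnt (w : Z2) (T n : ℕ) : ℕ :=
  ((range n).filter (fun m => T ≤ m ∧ iseq w m = 0)).card

/-- The universal set. -/
def LZ (A D : ℕ) : Set ℕ := {n | ∃ (s : ℕ) (w : Z2), isz w ≤ s ∧ 2 ^ (s ^ A) ≤ n ∧
  iseq w n = 0 ∧ zcnt w (2 ^ (s ^ A)) n ≤ 2 ^ (s ^ D)}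

/-- SCLZ: clearing denominators. -/
def SCLZ : Prop := ∀ l : Rec, l ≠ [] → ∃ w : Z2, w.length = l.length ∧
  isz w ≤ 10 * sz l ^ 3 ∧ ∀ n, (iseq w n = 0 ↔ seq l n = 0)

/-- CNTZ: the universal set is sparse. -/
def CNTZ : Prop := ∀ (η : ℝ) (D : ℕ), 0 < η → ∃ A0 : ℕ, ∀ A, A0 ≤ A → ∃ N0 : ℕ, ∀ N : ℕ,
  N0 ≤ N → ((LZ A D ∩ Set.Iio N).ncard : ℝ) ≤ Real.exp (Real.log N ^ η)

/-- CMPZ: the universal set is computable. -/
def CMPZ : Prop := ∀ A D : ℕ, 1 ≤ A → ComputablePred (fun n : ℕ => n ∈ LZ A D)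

/-! ### C. The formulas -/

open Pool.Agent.NPC Pool.Agent.NPC.ER Pool.Agent.NPC.H612 Pool.Agent.H612.PG in
/-- The formula for a zero with index `n < 2 ^ Nb` (as `tmFm`, with `=` in place of `≤`). -/
def zmFm (l : Rec) (Nb : ℕ) : Fm :=
  conj [g1 l, g2 l, g3 l.length, g4 l.length (2 * l.length + l.length ^ 2),
    g5 l.length (2 * l.length + l.length ^ 2), g6 l.length, g7 l.length,
    allR Nb fun t => bitF (mB t),
    allR l.length fun i => powF Nb (lamC i) mB (cv 17 i 0),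
    Fm.le (numT l.length) (numB Nb mB),
    Fm.eq (DT 0) Tm.one,
    allR l.length fun j => Fm.eq (Tm.mul (numT (j + 1)) (DT (j + 1)))
      (Tm.mul (DT j) (subT (numB Nb mB) (numT j))),
    Fm.eq (csum l.length fun i => csum l.length fun j =>
      cmul (cmul (cC i j) (creal (DT j))) (cv 17 i 0 Nb)).1 Tm.zero]

open Pool.Agent.NPC Pool.Agent.NPC.ER Pool.Agent.NPC.H612 Pool.Agent.H612.PG in
/-- The formula for an initial value which is zero. -/
def zsFm (l : Rec) : Fm := conj [g2 l, exR l.length fun n => Fm.eq (UT n) Tm.zero]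

/-- ZM: the meaning of `zmFm`. -/
def ZM : Prop := ∀ (l : Rec) (Nb : ℕ), 1 ≤ l.length →
  (Pool.Agent.NPC.ER.ETR (zmFm l Nb) ↔ ∃ n, l.length ≤ n ∧ n < 2 ^ Nb ∧ seq l n = 0)

/-- ZS: the meaning of `zsFm`. -/
def ZS : Prop := ∀ l : Rec, Pool.Agent.NPC.ER.ETR (zsFm l) ↔ ∃ n < l.length, seq l n = 0

/-- ZP: the formulas are computable in polynomial time. -/
def ZP : Prop := (∀ Nb : Rec → ℕ, Pool.Agent.NPC.UPoly Nb →
  Pool.Agent.NPC.Poly (fun l : Rec => zmFm l (Nb l))) ∧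
  Pool.Agent.NPC.Poly (fun l : Rec => zsFm l)

end Pool.Agent.TH997.SK
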